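import Mathlib

/-!
# A `p`-stable `p`-family without property (S) in the polynomial ring `k[x, y]`

Let `k` be an `F`-finite field of characteristic `p`.  In the strongly `F`-regular ring
`R = k[x, y]` consider the ideals

  `b_e = { f : t ^ (4 p ^ e) divides f (t ^ 2, t ^ 3) }`.

They form a `p`-family of `(x, y)`-primary ideals which is `p`-stable.  All of them contain the
prime ideal of the cusp `y ^ 2 = x ^ 3`.  Let `φ` be a surjective element of `Hom (F^d_* R, R)`,
`d ≥ 1`, say `φ (F^d_* c) = 1`, put `q = p ^ d` and choose `m` with `m (t ^ 2, t ^ 3) = t ^ q`.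
Then `x ^ q m c - y ^ q c` vanishes on the cusp, so it lies in `b_(e + d)`, but its image
`x φ (F^d_* (m c)) - y` under `φ` has coefficient `-1` at `t ^ 3` after `x ↦ t ^ 2`, `y ↦ t ^ 3`
and hence is not in `b_e`.  So `φ (F^d_* b_(e + d)) ⊆ b_e` fails for every single `e`.
-/

set_option autoImplicit false

open MvPolynomial

universe u

namespace Pool.Agent.Results.MP_30687b_ag.CuspFamily

/-- The underlying type of `F^e_* R`. It is `R` itself. -/
def FPush (_p _e : ℕ) (R : Type u) : Type u := R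

/-- The element `F^e_* r` of `F^e_* R` given by `r : R`. -/
def FPush.of (p e : ℕ) {R : Type u} (r : R) : FPush p e R := r

/-- The additive group of `F^e_* R` is the one of `R`. -/
instance FPush.instAddCommGroup (p e : ℕ) (R : Type u) [CommRing R] :
    AddCommGroup (FPush p e R) :=
  inferInstanceAs (AddCommGroup R)

/-- The `R`-module structure on `F^e_* R`, restriction of scalars along the `e`-th Frobenius:
`r • F^e_* s = F^e_* (r ^ (p ^ e) * s)`. -/
instance FPush.instModule (p e : ℕ) (R : Type u) [CommRing R] [ExpChar R p] :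
    Module R (FPush p e R) :=
  Module.compHom R (iterateFrobenius R p e)

theorem FPush.smul_of (p e : ℕ) {R : Type u} [CommRing R] [ExpChar R p] (r s : R) :
    r • FPush.of p e s = FPush.of p e (r ^ (p ^ e) * s) := rfl

/-- `C^R_e = Hom_R (F^e_* R, R)`. -/
abbrev CartierMap (p e : ℕ) (R : Type u) [CommRing R] [ExpChar R p] : Type u :=
  FPush p e R →ₗ[R] R

/-- `R` is `F`-finite: `F_* R` is a finitely generated `R`-module. -/
def IsFFinite (p : ℕ) (R : Type u) [CommRing R] [ExpChar R p] : Prop :=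
  Module.Finite R (FPush p 1 R)

/-- `R` is strongly `F`-regular: for every `c` not in any minimal prime there are `e ≥ 1` and
`ψ ∈ C^R_e` with `ψ (F^e_* c) = 1`. -/
def IsStronglyFRegular (p : ℕ) (R : Type u) [CommRing R] [ExpChar R p] : Prop :=
  ∀ c : R, (∀ P ∈ minimalPrimes R, c ∉ P) →
    ∃ e : ℕ, 1 ≤ e ∧ ∃ ψ : CartierMap p e R, ψ (FPush.of p e c) = 1

/-- `b` is a `p`-family: `(b e)^[p] ≤ b (e + 1)` for all `e`, where `I^[p]` is the ideal generated
by the `p`-th powers of the elements of `I`. -/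
def IsPFamily (p : ℕ) {R : Type u} [CommRing R] [ExpChar R p] (b : ℕ → Ideal R) : Prop :=
  ∀ e : ℕ, (b e).map (frobenius R p) ≤ b (e + 1)

/-- The `e`-th member of the `p`-stabilization of `b`: the set of `r` with
`r ^ (p ^ f) ∈ b (e + f)` for all sufficiently large `f`. -/
def pStabilization (p : ℕ) {R : Type u} [CommRing R] (b : ℕ → Ideal R) (e : ℕ) : Set R :=
  {r : R | ∃ N : ℕ, ∀ f : ℕ, N ≤ f → r ^ (p ^ f) ∈ b (e + f)}

/-- `b` is `p`-stable: it equals its `p`-stabilization. -/
def IsPStable (p : ℕ) {R : Type u} [CommRing R] (b : ℕ → Ideal R) : Prop :=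
  ∀ e : ℕ, pStabilization p b e = (b e : Set R)

/-- Property (S): there are `d ≥ 1` and a surjective `φ ∈ C^R_d` with
`φ (F^d_* b_(e+d)) ⊆ b_e` for all `e ≥ 0`. -/
def PropertyS (p : ℕ) {R : Type u} [CommRing R] [ExpChar R p] (b : ℕ → Ideal R) : Prop :=
  ∃ d : ℕ, 1 ≤ d ∧ ∃ φ : CartierMap p d R, Function.Surjective φ ∧
    ∀ e : ℕ, ∀ s ∈ b (e + d), φ (FPush.of p d s) ∈ b e

section General

variable {p e : ℕ} {R : Type u} [CommRing R] [ExpChar R p]

theorem cartier_add (φ : CartierMap p e R) (a b : R) :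
    φ (FPush.of p e (a + b)) = φ (FPush.of p e a) + φ (FPush.of p e b) :=
  map_add φ (FPush.of p e a) (FPush.of p e b)

theorem cartier_sub (φ : CartierMap p e R) (a b : R) :
    φ (FPush.of p e (a - b)) = φ (FPush.of p e a) - φ (FPush.of p e b) :=
  map_sub φ (FPush.of p e a) (FPush.of p e b)

theorem cartier_pow_mul (φ : CartierMap p e R) (r s : R) :
    φ (FPush.of p e (r ^ (p ^ e) * s)) = r * φ (FPush.of p e s) :=
  map_smul φ r (FPush.of p e s)

theorem cartier_zero (φ : CartierMap p e R) :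
    φ (FPush.of p e 0) = 0 := map_zero φ

/-- `F`-finiteness in terms of the Frobenius ring map. -/
theorem isFFinite_iff (p : ℕ) (R : Type u) [CommRing R] [ExpChar R p] :
    IsFFinite p R ↔ (frobenius R p).Finite := by
  have h : frobenius R p = iterateFrobenius R p 1 := (iterateFrobenius_one R p).symm
  rw [h]
  rfl

end General

section Poly

/-- Over a field there is a Cartier map sending a given nonzero element to `1`. -/
theorem exists_cartier_field {k : Type u} [Field k] (p : ℕ) [hp : Fact p.Prime] [CharP k p]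
    (e : ℕ) (a : k) (ha : a ≠ 0) :
    ∃ l : CartierMap p e k, l (FPush.of p e a) = 1 :=
  Module.Projective.exists_dual_eq_one k (x := FPush.of p e a) ha

variable {σ : Type} {k : Type u} [Field k] {p : ℕ} [hp : Fact p.Prime] [CharP k p]

/-- The map `f ↦ ∑_u l (coeff_(p ^ e u + s) f) X ^ u`. -/
noncomputable def polyFun (e : ℕ) (l : CartierMap p e k) (s : σ →₀ ℕ)
    (f : MvPolynomial σ k) : MvPolynomial σ k :=
  AddMonoidAlgebra.ofCoeff
    (Finsupp.mapRange (fun a : k => l (FPush.of p e a)) (cartier_zero l)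
      (Finsupp.comapDomain (fun u : σ →₀ ℕ => p ^ e • u + s) (AddMonoidAlgebra.coeff f)
        (by
          intro a _ b _ hab
          have h1 : p ^ e • a = p ^ e • b := by simpa using hab
          ext i
          have h2 := DFunLike.congr_fun h1 i
          simp only [Finsupp.smul_apply, smul_eq_mul] at h2
          exact Nat.eq_of_mul_eq_mul_left (pow_pos hp.out.pos e) h2)))

theorem coeff_polyFun (e : ℕ) (l : CartierMap p e k) (s : σ →₀ ℕ)
    (f : MvPolynomial σ k) (u : σ →₀ ℕ) :
    coeff u (polyFun e l s f) = l (FPush.of p e (coeff (p ^ e • u + s) f)) := rfl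

theorem polyFun_add (e : ℕ) (l : CartierMap p e k) (s : σ →₀ ℕ)
    (f g : MvPolynomial σ k) :
    polyFun e l s (f + g) = polyFun e l s f + polyFun e l s g := by
  ext u
  simp only [coeff_polyFun, coeff_add, cartier_add]

theorem polyFun_pow_mul (e : ℕ) (l : CartierMap p e k) (s : σ →₀ ℕ) (hs : ∀ i, s i < p ^ e)
    (g f : MvPolynomial σ k) :
    polyFun e l s (g ^ (p ^ e) * f) = g * polyFun e l s f := by
  induction g using MvPolynomial.induction_on' with
  | monomial v a =>
    ext u
    rw [coeff_polyFun, monomial_pow, coeff_monomial_mul', coeff_monomial_mul']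
    by_cases hvu : v ≤ u
    · have h1 : p ^ e • v ≤ p ^ e • u + s := by
        intro i
        simp only [Finsupp.smul_apply, smul_eq_mul, Finsupp.add_apply]
        have := Nat.mul_le_mul_left (p ^ e) (hvu i)
        omega
      have h2 : p ^ e • u + s - p ^ e • v = p ^ e • (u - v) + s := by
        ext i
        simp only [Finsupp.tsub_apply, Finsupp.smul_apply, smul_eq_mul, Finsupp.add_apply]
        have h3 := Nat.mul_le_mul_left (p ^ e) (hvu i)
        rw [Nat.mul_sub]
        omega
      rw [if_pos h1, if_pos hvu, h2, cartier_pow_mul, coeff_polyFun]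
    · have h1 : ¬ (p ^ e • v ≤ p ^ e • u + s) := by
        intro h
        apply hvu
        intro i
        have h4 := h i
        simp only [Finsupp.smul_apply, smul_eq_mul, Finsupp.add_apply] at h4
        have h5 := hs i
        by_contra hlt
        push Not at hlt
        have h6 : p ^ e * (u i + 1) ≤ p ^ e * v i := Nat.mul_le_mul_left _ hlt
        rw [Nat.mul_add, Nat.mul_one] at h6
        omega
      rw [if_neg h1, if_neg hvu, cartier_zero]
  | add g₁ g₂ h₁ h₂ =>
    have h3 : (g₁ + g₂) ^ (p ^ e) = g₁ ^ (p ^ e) + g₂ ^ (p ^ e) := add_pow_char_pow g₁ g₂ p e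
    rw [h3, add_mul, polyFun_add, h₁, h₂, add_mul]

/-- `polyFun` as a Cartier map of the polynomial ring. -/
noncomputable def polyCartier (e : ℕ) (l : CartierMap p e k) (s : σ →₀ ℕ)
    (hs : ∀ i, s i < p ^ e) : CartierMap p e (MvPolynomial σ k) where
  toFun := polyFun e l s
  map_add' := polyFun_add e l s
  map_smul' := fun g f => polyFun_pow_mul e l s hs g f

theorem stronglyFRegular_mvPolynomial (p : ℕ) [hp : Fact p.Prime] (k : Type u) [Field k]
    [CharP k p] (σ : Type) [Finite σ] :
    IsStronglyFRegular p (MvPolynomial σ k) := by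
  classical
  intro c hc
  have hc0 : c ≠ 0 := by
    intro h
    have := hc ⊥ (by simp [IsDomain.minimalPrimes_eq_singleton_bot])
    exact this (by simp [h])
  obtain ⟨s, hs⟩ := MvPolynomial.ne_zero_iff.1 hc0
  obtain ⟨e, he1, he⟩ : ∃ e : ℕ, 1 ≤ e ∧ c.totalDegree < p ^ e :=
    ⟨c.totalDegree + 1, by omega, lt_of_lt_of_le (Nat.lt_succ_self _)
      (Nat.lt_pow_self hp.out.one_lt).le⟩
  have hlt : ∀ u : σ →₀ ℕ, coeff u c ≠ 0 → ∀ i, u i < p ^ e := by
    intro u hu i
    refine lt_of_le_of_lt ?_ he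
    refine le_trans ?_ (le_totalDegree (mem_support_iff.2 hu))
    by_cases hi : u i = 0
    · rw [hi]; exact Nat.zero_le _
    · exact Finset.single_le_sum (f := fun i => u i) (fun _ _ => Nat.zero_le _)
        (Finsupp.mem_support_iff.2 hi)
  obtain ⟨l, hl⟩ := exists_cartier_field p e (coeff s c) hs
  refine ⟨e, he1, polyCartier e l s (hlt s hs), ?_⟩
  show polyFun e l s c = 1
  ext u
  rw [coeff_polyFun]
  by_cases hu : u = 0
  · subst hu
    simp [hl]
  · have h0 : coeff (p ^ e • u + s) c = 0 := by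
      by_contra h
      have hne : ∃ i, u i ≠ 0 := by
        by_contra h'
        push Not at h'
        exact hu (Finsupp.ext h')
      obtain ⟨i, hi⟩ := hne
      have h1 := hlt _ h i
      simp only [Finsupp.smul_apply, smul_eq_mul, Finsupp.add_apply] at h1
      have h2 : p ^ e * 1 ≤ p ^ e * u i := Nat.mul_le_mul_left _ (by omega)
      omega
    rw [h0, cartier_zero, coeff_one, if_neg (fun h => hu h.symm)]

theorem isFFinite_mvPolynomial (p : ℕ) [hp : Fact p.Prime] (k : Type u) [Field k]
    [CharP k p] (hk : IsFFinite p k) (σ : Type) [Finite σ] :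
    IsFFinite p (MvPolynomial σ k) := by
  rw [isFFinite_iff] at hk ⊢
  have hint : (frobenius (MvPolynomial σ k) p).IsIntegral := by
    intro r
    refine ⟨Polynomial.X ^ p - Polynomial.C r, Polynomial.monic_X_pow_sub_C r hp.out.ne_zero, ?_⟩
    simp [frobenius_def]
  have hcomp : (frobenius (MvPolynomial σ k) p).comp (C : k →+* MvPolynomial σ k)
      = (C : k →+* MvPolynomial σ k).comp (frobenius k p) := by
    ext a
    simp [frobenius_def]
  have hft : (frobenius (MvPolynomial σ k) p).FiniteType := by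
    apply RingHom.FiniteType.of_comp_finiteType (f := (C : k →+* MvPolynomial σ k))
    rw [hcomp]
    apply RingHom.FiniteType.comp _ hk.finiteType
    have h1 : (algebraMap k (MvPolynomial σ k)).FiniteType :=
      RingHom.finiteType_algebraMap.2 inferInstance
    exact h1
  exact hint.to_finite hft

end Poly

section Cusp

variable (k : Type u) [Field k]

/-- The ring map `k[x, y] → k[t]`, `x ↦ t ^ 2`, `y ↦ t ^ 3`. -/
noncomputable def cuspMap : MvPolynomial (Fin 2) k →+* Polynomial k :=
  (MvPolynomial.aeval (R := k) ![(Polynomial.X : Polynomial k) ^ 2, Polynomial.X ^ 3]).toRingHom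

/-- The cusp family: `b_e` is the set of `f` such that `t ^ (4 p ^ e)` divides
`f (t ^ 2, t ^ 3)`. -/
noncomputable def cuspFamily (p : ℕ) (e : ℕ) : Ideal (MvPolynomial (Fin 2) k) :=
  Ideal.comap (cuspMap k) (Ideal.span {(Polynomial.X : Polynomial k) ^ (4 * p ^ e)})

variable {k}

theorem cuspMap_X0 : cuspMap k (X 0) = Polynomial.X ^ 2 := by simp [cuspMap]

theorem cuspMap_X1 : cuspMap k (X 1) = Polynomial.X ^ 3 := by simp [cuspMap]

theorem cuspMap_C (a : k) : cuspMap k (C a) = Polynomial.C a := by simp [cuspMap]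

theorem mem_cuspFamily {p e : ℕ} {f : MvPolynomial (Fin 2) k} :
    f ∈ cuspFamily k p e ↔ (Polynomial.X : Polynomial k) ^ (4 * p ^ e) ∣ cuspMap k f := by
  rw [cuspFamily, Ideal.mem_comap, Ideal.mem_span_singleton]

theorem coeff_one_cuspMap (f : MvPolynomial (Fin 2) k) : (cuspMap k f).coeff 1 = 0 := by
  induction f using MvPolynomial.induction_on with
  | C a => simp [cuspMap_C]
  | add f g hf hg => simp [hf, hg]
  | mul_X f i hf =>
    rw [map_mul]
    fin_cases i
    · show (cuspMap k f * cuspMap k (X 0)).coeff 1 = 0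
      rw [cuspMap_X0, Polynomial.coeff_mul_X_pow']
      simp
    · show (cuspMap k f * cuspMap k (X 1)).coeff 1 = 0
      rw [cuspMap_X1, Polynomial.coeff_mul_X_pow']
      simp

theorem coeff_zero_cuspMap (f : MvPolynomial (Fin 2) k) :
    (cuspMap k f).coeff 0 = coeff 0 f := by
  induction f using MvPolynomial.induction_on with
  | C a => simp [cuspMap_C]
  | add f g hf hg => simp [hf, hg]
  | mul_X f i hf =>
    rw [map_mul]
    fin_cases i
    · show (cuspMap k f * cuspMap k (X 0)).coeff 0 = coeff 0 (f * X 0)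
      rw [cuspMap_X0, Polynomial.coeff_mul_X_pow', coeff_mul_X']
      simp
    · show (cuspMap k f * cuspMap k (X 1)).coeff 0 = coeff 0 (f * X 1)
      rw [cuspMap_X1, Polynomial.coeff_mul_X_pow', coeff_mul_X']
      simp

theorem isPFamily_cusp (p : ℕ) [hp : Fact p.Prime] [CharP k p] :
    IsPFamily p (cuspFamily k p) := by
  intro e
  rw [Ideal.map_le_iff_le_comap]
  intro f hf
  rw [Ideal.mem_comap, mem_cuspFamily, frobenius_def, map_pow]
  rw [mem_cuspFamily] at hf
  have := pow_dvd_pow_of_dvd hf p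
  rwa [← pow_mul, mul_assoc, ← pow_succ] at this

theorem isPStable_cusp (p : ℕ) [hp : Fact p.Prime] [CharP k p] :
    IsPStable p (cuspFamily k p) := by
  intro e
  ext f
  have key : ∀ g : ℕ, ((Polynomial.X : Polynomial k) ^ (4 * p ^ (e + g)) ∣
      cuspMap k f ^ (p ^ g)) ↔ ((Polynomial.X : Polynomial k) ^ (4 * p ^ e) ∣ cuspMap k f) := by
    intro g
    rw [pow_add, ← mul_assoc, pow_mul]
    exact UniqueFactorizationMonoid.pow_dvd_pow_iff_dvd (pow_pos hp.out.pos g).ne'
  constructor
  · rintro ⟨N, hN⟩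
    have h := hN N le_rfl
    rw [mem_cuspFamily, map_pow] at h
    exact mem_cuspFamily.2 ((key N).1 h)
  · intro h
    refine ⟨0, fun g _ => ?_⟩
    rw [mem_cuspFamily, map_pow]
    exact (key g).2 (mem_cuspFamily.1 h)

theorem mem_span_vars (f : MvPolynomial (Fin 2) k) (hf : coeff 0 f = 0) :
    f ∈ Ideal.span {(X 0 : MvPolynomial (Fin 2) k), X 1} := by
  have h1 : ({(X 0 : MvPolynomial (Fin 2) k), X 1} : Set (MvPolynomial (Fin 2) k)) =
      X '' (Set.univ : Set (Fin 2)) := by
    ext g
    simp [Fin.exists_fin_two, eq_comm]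
  rw [h1, mem_ideal_span_X_image]
  intro m hm
  by_contra hcon
  push Not at hcon
  have hm0 : m = 0 := Finsupp.ext fun i => hcon i (Set.mem_univ i)
  rw [mem_support_iff, hm0] at hm
  exact hm hf

theorem radical_cuspFamily (p : ℕ) [hp : Fact p.Prime] (e : ℕ) :
    (cuspFamily k p e).radical = Ideal.span {X 0, X 1} := by
  apply le_antisymm
  · rintro f ⟨n, hn⟩
    rw [mem_cuspFamily] at hn
    have h1 : (Polynomial.X : Polynomial k) ∣ cuspMap k (f ^ n) := by
      refine dvd_trans (dvd_pow_self _ ?_) hn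
      have := pow_pos hp.out.pos e
      omega
    rw [map_pow] at h1
    have h2 := Polynomial.prime_X.dvd_of_dvd_pow h1
    rw [Polynomial.X_dvd_iff, coeff_zero_cuspMap] at h2
    exact mem_span_vars f h2
  · rw [Ideal.span_le]
    rintro g (rfl | rfl)
    · refine ⟨2 * p ^ e, ?_⟩
      rw [mem_cuspFamily, map_pow, cuspMap_X0, ← pow_mul]
      exact pow_dvd_pow _ (by omega)
    · refine ⟨2 * p ^ e, ?_⟩
      rw [mem_cuspFamily, map_pow, cuspMap_X1, ← pow_mul]
      exact pow_dvd_pow _ (by omega)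

/-- No surjective Cartier map sends `F^d_* b_(e + d)` into `b_e`, for any single `e`. -/
theorem not_compatible_cusp (p : ℕ) [hp : Fact p.Prime] [CharP k p] (e d : ℕ) (hd : 1 ≤ d)
    (φ : CartierMap p d (MvPolynomial (Fin 2) k)) (hsurj : Function.Surjective φ) :
    ∃ s ∈ cuspFamily k p (e + d), φ (FPush.of p d s) ∉ cuspFamily k p e := by
  obtain ⟨c, hc⟩ : ∃ c : MvPolynomial (Fin 2) k, φ (FPush.of p d c) = 1 := hsurj 1
  -- an element whose image is `t ^ (p ^ d)`
  obtain ⟨m, hm⟩ : ∃ m : MvPolynomial (Fin 2) k, cuspMap k m = Polynomial.X ^ (p ^ d) := by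
    have h2 : 2 ≤ p ^ d := le_trans hp.out.two_le (Nat.le_self_pow (by omega) p)
    rcases Nat.even_or_odd' (p ^ d) with ⟨a, ha | ha⟩
    · exact ⟨X 0 ^ a, by rw [map_pow, cuspMap_X0, ← pow_mul, ha]⟩
    · refine ⟨X 0 ^ (a - 1) * X 1, ?_⟩
      rw [map_mul, map_pow, cuspMap_X0, cuspMap_X1, ← pow_mul, ← pow_add, ha]
      congr 1
      omega
  refine ⟨X 0 ^ (p ^ d) * (m * c) - X 1 ^ (p ^ d) * c, ?_, ?_⟩
  · have h0 : cuspMap k (X 0 ^ (p ^ d) * (m * c) - X 1 ^ (p ^ d) * c) = 0 := by
      rw [map_sub, map_mul, map_mul, map_mul, map_pow, map_pow, cuspMap_X0, cuspMap_X1, hm]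
      ring
    rw [mem_cuspFamily, h0]
    exact dvd_zero _
  · intro hmem
    rw [cartier_sub, cartier_pow_mul, cartier_pow_mul, hc, mul_one, mem_cuspFamily, map_sub,
      map_mul, cuspMap_X0, cuspMap_X1] at hmem
    have h4 : (Polynomial.X : Polynomial k) ^ 4 ∣
        Polynomial.X ^ 2 * cuspMap k (φ (FPush.of p d (m * c))) - Polynomial.X ^ 3 := by
      refine dvd_trans (pow_dvd_pow _ ?_) hmem
      have := pow_pos hp.out.pos e
      omega
    rw [Polynomial.X_pow_dvd_iff] at h4
    have h5 := h4 3 (by norm_num)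
    rw [Polynomial.coeff_sub, Polynomial.coeff_X_pow_mul', if_pos (by norm_num),
      coeff_one_cuspMap, Polynomial.coeff_X_pow_self, zero_sub] at h5
    exact one_ne_zero (neg_eq_zero.1 h5)

end Cusp

/-- **Q1 is false, for every prime `p`.**  For every prime `p` and every `F`-finite field `k` of
characteristic `p`, the Noetherian `F`-finite strongly `F`-regular ring `R = k[x, y]` has a
`p`-stable `p`-family of `(x, y)`-primary ideals which does not have property (S).  Moreover for
no `e ≥ 0` and no `d ≥ 1` is there a surjective `φ ∈ C^R_d` with `φ (F^d_* b_(e+d)) ⊆ b_e`. -/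
theorem result (p : ℕ) [Fact p.Prime] (k : Type u) [Field k] [CharP k p]
    (hk : IsFFinite p k) :
    IsNoetherianRing (MvPolynomial (Fin 2) k) ∧
    IsFFinite p (MvPolynomial (Fin 2) k) ∧
    IsStronglyFRegular p (MvPolynomial (Fin 2) k) ∧
    ∃ b : ℕ → Ideal (MvPolynomial (Fin 2) k),
      IsPFamily p b ∧ IsPStable p b ∧
      (∀ e : ℕ, (b e).radical = Ideal.span {X 0, X 1}) ∧
      ¬ PropertyS p b ∧
      (∀ e d : ℕ, 1 ≤ d → ∀ φ : CartierMap p d (MvPolynomial (Fin 2) k),
        Function.Surjective φ → ¬ ∀ s ∈ b (e + d), φ (FPush.of p d s) ∈ b e) := by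
  refine ⟨inferInstance, isFFinite_mvPolynomial p k hk (Fin 2),
    stronglyFRegular_mvPolynomial p k (Fin 2),
    cuspFamily k p, isPFamily_cusp p, isPStable_cusp p, radical_cuspFamily p, ?_, ?_⟩
  · rintro ⟨d, hd, φ, hsurj, hφ⟩
    obtain ⟨s, hs, hs'⟩ := not_compatible_cusp p 0 d hd φ hsurj
    exact hs' (hφ 0 s hs)
  · intro e d hd φ hsurj hφ
    obtain ⟨s, hs, hs'⟩ := not_compatible_cusp p e d hd φ hsurj
    exact hs' (hφ s hs)

end Pool.Agent.Results.MP_30687b_ag.CuspFamily
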